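import Mathlib

/-!
# In a compactible relation the complement of an interval is a finite disjoint union of intervals
-/

set_option autoImplicit false

namespace Pool.Agent.Results.MP_a8ef43_co.DisjointIntervals

open Set

universe u

variable {E : Type u} {n : ℕ}

/-- `f` restricted to `X` is a local automorphism of the relation `A` (a bijection from `X` onto
`f '' X` which is an isomorphism of the restrictions of `A`). -/
def IsLocalAut (A : Set (Fin n → E)) (X : Set E) (f : E → E) : Prop :=
  InjOn f X ∧ ∀ z : Fin n → E, (∀ i, z i ∈ X) → (z ∈ A ↔ f ∘ z ∈ A)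

open scoped Classical in
/-- the map which is `f` on `X` and the identity outside of `X` -/
noncomputable def extendId (X : Set E) (f : E → E) : E → E := fun e => if e ∈ X then f e else e

/-- `D` is an interval (mod `A`): every local automorphism `f : X → f '' X` of the restriction of
`A` to `D` (so `X ⊆ D` and `f` maps `X` into `D`), extended by the identity on the complement of
`D`, is a local automorphism of `A`. -/
def IsInterval (A : Set (Fin n → E)) (D : Set E) : Prop :=
  ∀ (X : Set E) (f : E → E), X ⊆ D → MapsTo f X D → IsLocalAut A X f →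
    IsLocalAut A (X ∪ Dᶜ) (extendId X f)

/-- `A` is compactible: the complement of every interval is a union of finitely many intervals. -/
def Compactible (A : Set (Fin n → E)) : Prop :=
  ∀ D : Set E, IsInterval A D →
    ∃ F : Set (Set E), F.Finite ∧ (∀ I ∈ F, IsInterval A I) ∧ ⋃₀ F = Dᶜ

theorem ext_mem {X : Set E} {f : E → E} {x : E} (h : x ∈ X) : extendId X f x = f x := by
  unfold extendId; exact if_pos h

theorem ext_notMem {X : Set E} {f : E → E} {x : E} (h : x ∉ X) : extendId X f x = x := by
  unfold extendId; exact if_neg h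

theorem injOn_ext {X D : Set E} {f : E → E} (hf : InjOn f X) (hm : MapsTo f X D) :
    InjOn (extendId X f) (X ∪ Dᶜ) := by
  intro a ha b hb hab
  by_cases h1 : a ∈ X <;> by_cases h2 : b ∈ X
  · rw [ext_mem h1, ext_mem h2] at hab
    exact hf h1 h2 hab
  · rw [ext_mem h1, ext_notMem h2] at hab
    have h3 : b ∉ D := by rcases hb with h | h; exact absurd h h2; exact h
    exact absurd (hab ▸ hm h1 : b ∈ D) h3
  · rw [ext_notMem h1, ext_mem h2] at hab
    have h3 : a ∉ D := by rcases ha with h | h; exact absurd h h1; exact h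
    exact absurd (hab ▸ hm h2 : a ∈ D) h3
  · rw [ext_notMem h1, ext_notMem h2] at hab
    exact hab

theorem isInterval_univ (A : Set (Fin n → E)) : IsInterval A (univ : Set E) := by
  classical
  intro X f hX hm hf
  refine ⟨injOn_ext hf.1 hm, fun z hz => ?_⟩
  have h1 : ∀ i, z i ∈ X := fun i => by simpa using hz i
  rw [hf.2 z h1]
  have h2 : (extendId X f) ∘ z = f ∘ z := by
    funext i; simp [ext_mem (h1 i)]
  rw [h2]

theorem IsInterval.inter {A : Set (Fin n → E)} {I J : Set E} (hI : IsInterval A I)
    (hJ : IsInterval A J) : IsInterval A (I ∩ J) := by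
  classical
  intro X f hX hm hf
  have h1 := hI X f (hX.trans inter_subset_left) (hm.mono_right inter_subset_left) hf
  set g := extendId X f with hg
  have hgX : ∀ x ∈ X, g x = f x := fun x hx => ext_mem hx
  have hgn : ∀ x, x ∉ X → g x = x := fun x hx => ext_notMem hx
  -- restrict to J
  have h2 : IsLocalAut A (X ∪ (J \ I)) g := by
    refine ⟨h1.1.mono ?_, fun z hz => h1.2 z fun i => ?_⟩
    · exact union_subset_union_right _ (fun x hx => hx.2)
    · rcases hz i with h | h
      · exact Or.inl h
      · exact Or.inr h.2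
  have h3 := hJ (X ∪ (J \ I)) g (union_subset (hX.trans inter_subset_right) sdiff_subset)
    (by
      intro x hx
      rcases hx with h | h
      · rw [hgX x h]; exact (hm h).2
      · rw [hgn x (fun h' => h.2 (hX h').1)]; exact h.1) h2
  refine ⟨injOn_ext hf.1 hm, fun z hz => ?_⟩
  have h4 : ∀ i, z i ∈ X ∪ (J \ I) ∪ Jᶜ := by
    intro i
    rcases hz i with h | h
    · exact Or.inl (Or.inl h)
    · by_cases hj : z i ∈ J
      · exact Or.inl (Or.inr ⟨hj, fun hi => h ⟨hi, hj⟩⟩)
      · exact Or.inr hj
  rw [h3.2 z h4]
  have h5 : (extendId (X ∪ (J \ I)) g) ∘ z = g ∘ z := by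
    funext i
    by_cases h : z i ∈ X ∪ (J \ I)
    · simp only [Function.comp]
      rw [ext_mem h]
    · simp only [Function.comp]
      rw [ext_notMem h, hgn _ (fun h' => h (Or.inl h'))]
  rw [h5]

/-- the type of an `n`-tuple -/
def typ (A : Set (Fin n → E)) (z : Fin n → E) : Set (Fin n → Fin n) × Set (Fin n × Fin n) :=
  ({u | z ∘ u ∈ A}, {p | z p.1 = z p.2})

/-- the types realised in `X` -/
def types (A : Set (Fin n → E)) (X : Set E) : Set (Set (Fin n → Fin n) × Set (Fin n × Fin n)) :=
  {t | ∃ z : Fin n → E, (∀ i, z i ∈ X) ∧ typ A z = t}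

theorem types_mono (A : Set (Fin n → E)) {X Y : Set E} (h : X ⊆ Y) : types A X ⊆ types A Y := by
  rintro t ⟨z, hz, rfl⟩
  exact ⟨z, fun i => h (hz i), rfl⟩

theorem diff_isInterval {A : Set (Fin n → E)} {I J : Set E} (hI : IsInterval A I)
    (hJ : IsInterval A J) (hT : types A I ⊆ types A (I \ J)) : IsInterval A (J \ I) := by
  classical
  intro X f hX hm hf
  have hXJ : X ⊆ J := hX.trans sdiff_subset
  have hj := hJ X f hXJ (hm.mono_right sdiff_subset) hf
  set g := extendId X f with hg
  have hgX : ∀ x ∈ X, g x = f x := fun x hx => ext_mem hx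
  have hgn : ∀ x, x ∉ X → g x = x := fun x hx => ext_notMem hx
  refine ⟨injOn_ext hf.1 hm, fun z hz => ?_⟩
  by_cases hex : ∃ i0, z i0 ∈ I
  · obtain ⟨i0, hi0⟩ := hex
    set z' : Fin n → E := fun i => if z i ∈ I then z i else z i0 with hz'
    have hz'I : ∀ i, z' i ∈ I := by
      intro i
      simp only [hz']
      split_ifs with h
      · exact h
      · exact hi0
    obtain ⟨y, hy, hty⟩ := hT ⟨z', hz'I, rfl⟩
    have heq : ∀ i j, y i = y j ↔ z' i = z' j := by
      intro i j
      have := congrArg (fun t => (i, j) ∈ t.2) hty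
      simpa [typ] using this
    have hrel : ∀ w : Fin n → Fin n, y ∘ w ∈ A ↔ z' ∘ w ∈ A := by
      intro w
      have := congrArg (fun t => w ∈ t.1) hty
      simpa [typ] using this
    set h : E → E := fun e => if he : ∃ i, z' i = e then y he.choose else e with hh
    have hhz : ∀ i, h (z' i) = y i := by
      intro i
      have he : ∃ j, z' j = z' i := ⟨i, rfl⟩
      simp only [hh]
      rw [dif_pos he]
      exact (heq _ _).2 he.choose_spec
    have hloc : IsLocalAut A (range z') h := by
      refine ⟨?_, ?_⟩
      · rintro _ ⟨i, rfl⟩ _ ⟨j, rfl⟩ hij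
        rw [hhz, hhz] at hij
        exact (heq i j).1 hij
      · intro w hw
        choose v hv using hw
        have h1 : w = z' ∘ v := funext fun i => (hv i).symm
        have h2 : h ∘ w = y ∘ v := by
          funext i
          rw [h1]
          simp [hhz]
        rw [h2, hrel, ← h1]
    have hi := hI (range z') h (by rintro _ ⟨i, rfl⟩; exact hz'I i)
      (by rintro _ ⟨i, rfl⟩; rw [hhz]; exact (hy i).1) hloc
    set k := extendId (range z') h with hk
    have hkI : ∀ i, z i ∈ I → z i ∈ range z' ∧ k (z i) = y i := by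
      intro i hi'
      have h1 : z' i = z i := by simp [hz', hi']
      have h2 : z i ∈ range z' := ⟨i, h1⟩
      refine ⟨h2, ?_⟩
      rw [hk, ext_mem h2, ← h1, hhz]
    have hkn : ∀ e, e ∉ I → k e = e := by
      intro e he
      rw [hk, ext_notMem (by rintro ⟨i, rfl⟩; exact he (hz'I i))]
    have e1 : z ∈ A ↔ k ∘ z ∈ A := hi.2 z fun i => by
      by_cases hi' : z i ∈ I
      · exact Or.inl (hkI i hi').1
      · exact Or.inr hi'
    have e2 : k ∘ z ∈ A ↔ g ∘ (k ∘ z) ∈ A := hj.2 _ fun i => by
      by_cases hi' : z i ∈ I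
      · right
        show k (z i) ∉ J
        rw [(hkI i hi').2]
        exact (hy i).2
      · simp only [Function.comp]
        rw [hkn _ hi']
        rcases hz i with h1 | h1
        · exact Or.inl h1
        · exact Or.inr fun h2 => h1 ⟨h2, hi'⟩
    have hgz : ∀ i, z i ∉ I → g (z i) ∉ I := by
      intro i hi'
      by_cases hx : z i ∈ X
      · rw [hgX _ hx]; exact (hm hx).2
      · rw [hgn _ hx]; exact hi'
    have e3 : g ∘ z ∈ A ↔ k ∘ (g ∘ z) ∈ A := hi.2 _ fun i => by
      by_cases hi' : z i ∈ I
      · left
        simp only [Function.comp]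
        rw [hgn _ (fun h1 => (hX h1).2 hi')]
        exact (hkI i hi').1
      · exact Or.inr (hgz i hi')
    have e4 : g ∘ (k ∘ z) = k ∘ (g ∘ z) := by
      funext i
      simp only [Function.comp]
      by_cases hi' : z i ∈ I
      · rw [(hkI i hi').2, hgn (z i) (fun h1 => (hX h1).2 hi'), (hkI i hi').2]
        exact hgn _ fun h1 => (hy i).2 (hXJ h1)
      · rw [hkn _ hi', hkn _ (hgz i hi')]
    rw [e1, e2, e4, ← e3]
  · push Not at hex
    refine hj.2 z fun i => ?_
    rcases hz i with h1 | h1
    · exact Or.inl h1
    · exact Or.inr fun h2 => h1 ⟨h2, hex i⟩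

/-- finite disjoint unions of intervals satisfying `p` -/
inductive FD (A : Set (Fin n → E)) (p : Set E → Prop) : Set E → Prop
  | empty : FD A p ∅
  | add {S U : Set E} : FD A p U → IsInterval A S → p S → Disjoint S U → FD A p (S ∪ U)

theorem FD.single {A : Set (Fin n → E)} {p : Set E → Prop} {S : Set E} (h : IsInterval A S)
    (hp : p S) : FD A p S := by
  have := FD.add FD.empty h hp (disjoint_empty S)
  simpa using this

theorem FD.disj {A : Set (Fin n → E)} {p : Set E → Prop} {U V : Set E} (hU : FD A p U)
    (hV : FD A p V) (h : Disjoint U V) : FD A p (U ∪ V) := by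
  induction hU with
  | empty => simpa using hV
  | @add S U hU hS hp hd ih =>
    rw [union_assoc]
    have h1 : Disjoint U V := h.mono_left subset_union_right
    have h2 : Disjoint S V := h.mono_left subset_union_left
    exact FD.add (ih h1) hS hp (disjoint_union_right.2 ⟨hd, h2⟩)

theorem FD.mono {A : Set (Fin n → E)} {p q : Set E → Prop} {U : Set E} (hU : FD A p U)
    (h : ∀ S, S ⊆ U → p S → q S) : FD A q U := by
  induction hU with
  | empty => exact FD.empty
  | @add S U hU hS hp hd ih =>
    exact FD.add (ih fun T hT => h T (hT.trans subset_union_right)) hS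
      (h S subset_union_left hp) hd

section Step

variable {A : Set (Fin n → E)} {p : Set E → Prop}

/-- removing an interval from a disjoint union of small intervals -/
theorem FD.diff (hp : ∀ S T, IsInterval A S → IsInterval A T → p S → FD A p (S \ T))
    {W T : Set E} (hW : FD A p W) (hT : IsInterval A T) : FD A p (W \ T) := by
  induction hW with
  | empty => simpa using FD.empty
  | @add S U hU hS hpS hd ih =>
    rw [union_sdiff_distrib]
    exact (hp S T hS hT hpS).disj ih (hd.mono sdiff_subset sdiff_subset)

theorem FD.union (hp : ∀ S T, IsInterval A S → IsInterval A T → p S → FD A p (S \ T))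
    {U V : Set E} (hU : FD A p U) (hV : FD A p V) : FD A p (U ∪ V) := by
  induction hU with
  | empty => simpa using hV
  | @add S U hU hS hpS hd ih =>
    have h1 : S ∪ U ∪ V = S ∪ ((U ∪ V) \ S) := by
      rw [union_assoc, union_sdiff_self]
    rw [h1]
    exact FD.add (ih.diff hp hS) hS hpS disjoint_sdiff_right

theorem main_step (hp : ∀ S T, IsInterval A S → IsInterval A T → p S → FD A p (S \ T))
    (U : Set E)
    (hq : ∀ S T, IsInterval A S → IsInterval A T → S ⊆ U →
      ¬ types A S ⊆ types A (S \ T) → FD A p (S \ T)) :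
    ∀ (m : ℕ) (L : List (Set E)), L.length = m → (∀ F ∈ L, IsInterval A F ∧ F ⊆ U) →
      ∀ W, FD A p W → FD A (fun _ => True) ({x | ∃ F ∈ L, x ∈ F} ∪ W) := by
  intro m
  induction m with
  | zero =>
    intro L hL _ W hW
    have : L = [] := List.length_eq_zero_iff.1 hL
    subst this
    simpa using hW.mono fun _ _ _ => trivial
  | succ m ih =>
    intro L hL hLi W hW
    obtain ⟨F1, L', rfl⟩ : ∃ F1 L', L = F1 :: L' := by
      cases L with
      | nil => simp at hL
      | cons a b => exact ⟨a, b, rfl⟩
    have hL' : L'.length = m := by simpa using hL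
    have hF1 := hLi F1 (by simp)
    by_cases hc : ∃ G ∈ L', ¬ types A F1 ⊆ types A (F1 \ G)
    · obtain ⟨G, hG, hne⟩ := hc
      have hGi := hLi G (by simp [hG])
      have h1 := hq F1 G hF1.1 hGi.1 hF1.2 hne
      have h2 := ih L' hL' (fun F hF => hLi F (by simp [hF])) _ (h1.union hp hW)
      have h3 : ({x | ∃ F ∈ L', x ∈ F} ∪ (F1 \ G ∪ W) : Set E)
          = {x | ∃ F ∈ F1 :: L', x ∈ F} ∪ W := by
        ext x
        simp only [mem_union, mem_ofPred_eq, mem_sdiff, List.mem_cons, exists_eq_or_imp]
        constructor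
        · rintro (h | ⟨h, _⟩ | h)
          · exact Or.inl (Or.inr h)
          · exact Or.inl (Or.inl h)
          · exact Or.inr h
        · rintro ((h | h) | h)
          · by_cases hx : x ∈ G
            · exact Or.inl ⟨G, hG, hx⟩
            · exact Or.inr (Or.inl ⟨h, hx⟩)
          · exact Or.inl h
          · exact Or.inr (Or.inr h)
      rwa [h3] at h2
    · push Not at hc
      have h2 := ih (L'.map fun G => G \ F1) (by simpa using hL') (by
        intro F hF
        rw [List.mem_map] at hF
        obtain ⟨G, hG, rfl⟩ := hF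
        have hGi := hLi G (by simp [hG])
        exact ⟨diff_isInterval hF1.1 hGi.1 (hc G hG), sdiff_subset.trans hGi.2⟩) _
        (hW.diff hp hF1.1)
      have h3 := FD.add h2 hF1.1 trivial (by
        rw [disjoint_union_right]
        refine ⟨?_, disjoint_sdiff_right⟩
        rw [Set.disjoint_left]
        rintro x hx ⟨F, hF, hxF⟩
        rw [List.mem_map] at hF
        obtain ⟨G, hG, rfl⟩ := hF
        exact hxF.2 hx)
      have h4 : (F1 ∪ ({x | ∃ F ∈ L'.map (fun G => G \ F1), x ∈ F} ∪ W \ F1) : Set E)
          = {x | ∃ F ∈ F1 :: L', x ∈ F} ∪ W := by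
        ext x
        simp only [mem_union, mem_ofPred_eq, mem_sdiff, List.mem_cons, exists_eq_or_imp,
          List.mem_map, exists_exists_and_eq_and]
        constructor
        · rintro (h | ⟨G, hG, h, _⟩ | ⟨h, _⟩)
          · exact Or.inl (Or.inl h)
          · exact Or.inl (Or.inr ⟨G, hG, h⟩)
          · exact Or.inr h
        · rintro ((h | ⟨G, hG, h⟩) | h)
          · exact Or.inl h
          · by_cases hx : x ∈ F1
            · exact Or.inl hx
            · exact Or.inr (Or.inl ⟨G, hG, h, hx⟩)
          · by_cases hx : x ∈ F1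
            · exact Or.inl hx
            · exact Or.inr (Or.inr ⟨h, hx⟩)
      rwa [h4] at h3

end Step

theorem diff_FD {A : Set (Fin n → E)} (hA : Compactible A) :
    ∀ (m : ℕ) (X Y : Set E), IsInterval A X → IsInterval A Y → (types A (X \ Y)).ncard = m →
      FD A (fun _ => True) (X \ Y) := by
  intro m
  induction m using Nat.strong_induction_on with
  | _ m ih =>
    intro X Y hX hY hm
    have hfin : ∀ S : Set (Set (Fin n → Fin n) × Set (Fin n × Fin n)), S.Finite :=
      fun S => S.toFinite
    -- small sets
    set U := X \ Y with hU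
    let p : Set E → Prop := fun S => types A S ⊂ types A U
    have hcard : ∀ {S : Set E}, types A S ⊂ types A U → (types A S).ncard < m := by
      intro S hS
      rw [← hm]
      exact ncard_lt_ncard hS (hfin _)
    have hmono : ∀ {S T : Set E}, S ⊆ T → types A T ⊂ types A U → types A S ⊂ types A U :=
      fun h1 h2 => lt_of_le_of_lt (types_mono A h1) h2
    have hp : ∀ S T, IsInterval A S → IsInterval A T → p S → FD A p (S \ T) := by
      intro S T hS hT hpS
      have h1 : types A (S \ T) ⊂ types A U := hmono sdiff_subset hpS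
      refine (ih _ (hcard h1) S T hS hT rfl).mono fun R hR _ => hmono hR h1
    have hq : ∀ S T, IsInterval A S → IsInterval A T → S ⊆ U →
        ¬ types A S ⊆ types A (S \ T) → FD A p (S \ T) := by
      intro S T hS hT hSU hne
      have h1 : types A (S \ T) ⊂ types A U := by
        refine ⟨types_mono A (sdiff_subset.trans hSU), fun h => hne ?_⟩
        exact (types_mono A hSU).trans h
      refine (ih _ (hcard h1) S T hS hT rfl).mono fun R hR _ => hmono hR h1
    obtain ⟨F, hF, hFi, hFU⟩ := hA Y hY
    have h2 := main_step hp U hq _ (hF.toFinset.toList.map fun I => X ∩ I) rfl (by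
      intro G hG
      simp only [List.mem_map, Finset.mem_toList, Finite.mem_toFinset] at hG
      obtain ⟨I, hI, rfl⟩ := hG
      refine ⟨hX.inter (hFi I hI), fun x hx => ⟨hx.1, ?_⟩⟩
      have : x ∈ ⋃₀ F := ⟨I, hI, hx.2⟩
      rw [hFU] at this
      exact this) ∅ FD.empty
    have h3 : ({x | ∃ G ∈ hF.toFinset.toList.map (fun I => X ∩ I), x ∈ G} ∪ ∅ : Set E) = U := by
      ext x
      simp only [union_empty, mem_ofPred_eq, List.mem_map, Finset.mem_toList,
        Finite.mem_toFinset, exists_exists_and_eq_and, mem_inter_iff, hU, mem_sdiff]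
      constructor
      · rintro ⟨I, hI, hx, hxI⟩
        have : x ∈ ⋃₀ F := ⟨I, hI, hxI⟩
        rw [hFU] at this
        exact ⟨hx, this⟩
      · rintro ⟨hx, hxY⟩
        have : x ∈ ⋃₀ F := by rw [hFU]; exact hxY
        obtain ⟨I, hI, hxI⟩ := this
        exact ⟨I, hI, hx, hxI⟩
    rwa [h3] at h2

theorem FD.sets {A : Set (Fin n → E)} {p : Set E → Prop} {U : Set E} (hU : FD A p U) :
    ∃ F : Set (Set E), F.Finite ∧ (∀ I ∈ F, IsInterval A I) ∧ F.PairwiseDisjoint id ∧
      ⋃₀ F = U := by
  induction hU with
  | empty => exact ⟨∅, finite_empty, by simp, by simp, by simp⟩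
  | @add S U hU hS hp hd ih =>
    obtain ⟨F, h1, h2, h3, h4⟩ := ih
    refine ⟨insert S F, h1.insert S, ?_, ?_, ?_⟩
    · rintro I (rfl | hI)
      · exact hS
      · exact h2 I hI
    · refine h3.insert ?_
      intro J hJ _
      exact hd.mono_right (by rw [← h4]; exact subset_sUnion_of_mem hJ)
    · rw [sUnion_insert, h4]

/-- For every relation `A` (of any finite arity, on any base) that is compactible, the complement
of every interval is a union of finitely many pairwise disjoint intervals. -/
theorem result {E : Type u} {n : ℕ} (A : Set (Fin n → E)) (hA : Compactible A) (D : Set E)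
    (hD : IsInterval A D) :
    ∃ F : Set (Set E), F.Finite ∧ (∀ I ∈ F, IsInterval A I) ∧ F.PairwiseDisjoint id ∧
      ⋃₀ F = Dᶜ := by
  have h := (diff_FD hA _ univ D (isInterval_univ A) hD rfl).sets
  rwa [← compl_eq_univ_sdiff] at h

end Pool.Agent.Results.MP_a8ef43_co.DisjointIntervals
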